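import Pool.Agent.Helper6.CX.Goals

/-!
Packet CX/DEEPC: almost all points are deep.
-/

namespace Pool.Agent.Helper87.CX

open Pool.Agent.Helper6.CX

theorem thm : S_DEEPC := by
  classical
  intro n m N₀ E R₀ c B hm hE hSel hn S hS
  obtain ⟨-, -, -, T, hT, hcov⟩ := hSel
  set D := 2 * m + 1 with hD
  have hDpos : 0 < D := by omega
  let K : Finset ℕ := (B.image (fun q => q.val / D) ∪ T) ∪ {n / D}
  have hKcard : K.card ≤ B.card + E := by
    have h1 : K.card ≤ (B.image (fun q : Fin n => q.val / D) ∪ T).card + ({n / D} : Finset ℕ).card :=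
      Finset.card_union_le _ _
    have h2 : (B.image (fun q : Fin n => q.val / D) ∪ T).card ≤
        (B.image (fun q : Fin n => q.val / D)).card + T.card := Finset.card_union_le _ _
    have h3 : (B.image (fun q : Fin n => q.val / D)).card ≤ B.card := Finset.card_image_le
    have h4 : ({n / D} : Finset ℕ).card = 1 := Finset.card_singleton _
    omega
  have hsub : (Finset.univ \ S).image (fun p : Fin n => p.val) ⊆
      Finset.range R₀ ∪ K.biUnion (fun k => Finset.Ico (D * k) (D * k + (D + R₀))) := by
    intro x hx
    obtain ⟨p, hp, rfl⟩ := Finset.mem_image.mp hx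
    have hpS : p ∉ S := (Finset.mem_sdiff.mp hp).2
    have hnd : ¬ Deep m N₀ c R₀ p.val := fun h => hpS (hS p h)
    rw [Finset.mem_union]
    by_cases hpR : p.val < R₀
    · exact Or.inl (Finset.mem_range.mpr hpR)
    · right
      have hnd' : ∃ q, p.val ≤ q + R₀ ∧ q ≤ p.val ∧ ¬ ∃ i < N₀, c i = q / (2 * m + 1) := by
        by_contra hcon
        push Not at hcon
        apply hnd
        refine ⟨by omega, ?_⟩
        intro q hq1 hq2
        exact hcon q hq1 hq2
      obtain ⟨q, hq1, hq2, hq3⟩ := hnd'
      have hqn : q < n := lt_of_le_of_lt hq2 p.isLt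
      have hmem : q / D ∈ K := by
        by_cases hfull : D * (q / D + 1) ≤ n
        · rcases hcov (q / D) hfull with h | h | h
          · exact absurd h hq3
          · obtain ⟨b, hb, hb'⟩ := h
            refine Finset.mem_union_left _ (Finset.mem_union_left _ ?_)
            exact Finset.mem_image.mpr ⟨b, hb, hb'⟩
          · exact Finset.mem_union_left _ (Finset.mem_union_right _ h)
        · refine Finset.mem_union_right _ ?_
          rw [Finset.mem_singleton]
          apply le_antisymm
          · exact Nat.div_le_div_right hqn.le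
          · have h1 : n < (q / D + 1) * D := by
              rw [Nat.mul_comm]; omega
            have h2 : n / D < q / D + 1 := (Nat.div_lt_iff_lt_mul hDpos).mpr h1
            omega
      refine Finset.mem_biUnion.mpr ⟨q / D, hmem, ?_⟩
      rw [Finset.mem_Ico]
      have h1 : D * (q / D) ≤ q := Nat.mul_div_le q D
      have h2 : q < D * (q / D) + D := by
        have := Nat.div_add_mod q D
        have h3 := Nat.mod_lt q hDpos
        omega
      constructor
      · omega
      · omega
  have hcardU : (Finset.univ \ S).card ≤ R₀ + (B.card + E) * (D + R₀) := by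
    have h1 : ((Finset.univ \ S).image (fun p : Fin n => p.val)).card = (Finset.univ \ S).card :=
      Finset.card_image_of_injective _ Fin.val_injective
    rw [← h1]
    refine (Finset.card_le_card hsub).trans ?_
    refine (Finset.card_union_le _ _).trans ?_
    have h2 : (K.biUnion (fun k => Finset.Ico (D * k) (D * k + (D + R₀)))).card ≤
        K.card * (D + R₀) := by
      refine Finset.card_biUnion_le_card_mul _ _ _ ?_
      intro k _
      rw [Nat.card_Ico]
      omega
    have h3 : K.card * (D + R₀) ≤ (B.card + E) * (D + R₀) := Nat.mul_le_mul_right _ hKcard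
    rw [Finset.card_range]
    omega
  have hsum : (Finset.univ \ S).card + S.card = n := by
    have := Finset.card_sdiff_add_card_eq_card (Finset.subset_univ S)
    rw [Finset.card_univ, Fintype.card_fin] at this
    exact this
  have hbig : R₀ + (B.card + E) * (D + R₀) ≤ (B.card + E + 2) * (R₀ + 2 * D) := by
    have : (B.card + E + 2) * (R₀ + 2 * D) =
      (B.card + E) * (D + R₀) + (B.card + E) * D + 2 * R₀ + 4 * D := by ring
    rw [this]
    have h0 : 0 ≤ (B.card + E) * D := Nat.zero_le _
    omega
  have h10 : 10 * (Finset.univ \ S).card ≤ n := by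
    calc 10 * (Finset.univ \ S).card ≤ 10 * ((B.card + E + 2) * (R₀ + 2 * D)) :=
          Nat.mul_le_mul_left _ (hcardU.trans hbig)
      _ ≤ n := hn
  omega

end Pool.Agent.Helper87.CX
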